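import Pool.Agent.H94.LP2.M18
import Pool.Agent.H94.LP2.M38
import Pool.Agent.H94.LP2.M44

/-!
The main theorem.
-/

namespace Pool.Agent.H21.HD

open MvPolynomial Pool.Agent.H18.Fat
open scoped Classical

namespace MainX

end MainX

open MainX

/-- The main theorem. -/
theorem main (d : ℕ) (η : ℝ) (hη : 0 < η) : ∃ r₀ : ℕ, ∀ r : ℕ, r₀ ≤ r →
    ∀ (k : ℕ) (m : Fin k → ℕ), (∀ i, 1 ≤ m i) →
    ((∀ i, m i ≤ d) →
      (∀ j ≤ d, η * ((j + r).choose r : ℝ) ≤ (fro r (fun i => d + 1 - m i) Finset.univ j : ℝ)) →
      ForGeneralPoints r k fun p =>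
        (¬ ImposesMaximalConditions r d p m ↔ ∃ i j, i ≠ j ∧ d + 2 ≤ m i + m j) ∧
        |(Module.finrank ℂ (fatForms r d p m) : ℝ) -
          (fro r (fun i => d + 1 - m i) Finset.univ d : ℝ)| ≤ η * ((d + r).choose r : ℝ)) ∧
    ((∃ i, d < m i) ∨ (∃ I : Finset (Fin k), (∀ i ∈ I, m i ≤ d) ∧ ∃ j ≤ d,
        (fro r (fun i => d + 1 - m i) I j : ℝ) ≤ - (η * ((j + r).choose r : ℝ))) →
      ForGeneralPoints r k fun p =>
        Module.finrank ℂ (fatForms r d p m) = 0 ∧ ImposesMaximalConditions r d p m) := by
  -- the constants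
  choose V hV using fun j : Fin (d + 1) =>
    vanish_general j.1 d (Nat.lt_succ_iff.1 j.2) η hη
  obtain ⟨r₁, h₁⟩ : ∃ r₁ : ℕ, ∀ r : ℕ, r₁ ≤ r → ∀ (k : ℕ) (m : Fin k → ℕ),
      (∀ i, 1 ≤ m i ∧ m i ≤ d) → (∀ i j, i ≠ j → m i + m j ≤ d + 1) →
      (∑ i, ((m i + r - 1).choose r : ℝ)) ≤ (1 - η) * ((d + r).choose r : ℝ) →
      ForGeneralPoints r k fun p => ImposesMaximalConditions r d p m := by
    rcases Nat.eq_zero_or_pos d with hd | hd
    · subst hd
      refine ⟨0, fun r _ k m hm _ _ => ?_⟩
      have hk : k = 0 := by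
        by_contra hk
        have := hm ⟨0, Nat.pos_of_ne_zero hk⟩
        omega
      subst hk
      refine ⟨1, one_ne_zero, fun p _ => ?_⟩
      unfold ImposesMaximalConditions
      have h5 := rank_full_add_finrank (d := 0) p m
      have h6 : Module.finrank ℂ (LinearMap.range (fullMat r 0 p m).mulVecLin) = 0 := by
        have h7 : (fullMat r 0 p m) = 0 := by
          ext x α
          exact absurd x.1.2 (Nat.not_lt_zero _)
        rw [h7]
        simp
      simp only [zero_add, Nat.choose_self] at h5
      simp only [zero_add, Nat.choose_self, Finset.univ_eq_empty, Finset.sum_empty]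
      have h8 : Module.finrank ℂ (fatForms r 0 p m) = 1 := by omega
      rw [h8]
      norm_num
    · exact indep_general d hd η hη
  obtain ⟨r₂, h₂⟩ := lower_general d η (η / 2) hη (by linarith)
  obtain ⟨r₃, h₃⟩ := upper_general d η hη
  refine ⟨Finset.univ.sup V + r₁ + r₂ + r₃ + 1, fun r hr k m hm => ?_⟩
  have hr1 : 1 ≤ r := by omega
  have hs : ∀ j, (0 : ℝ) < ((j + r).choose r : ℝ) := by
    intro j
    exact_mod_cast Nat.choose_pos (by omega)
  constructor
  · intro hmd hfro
    have he : ∀ i, 1 ≤ d + 1 - m i := fun i => by have := hmd i; omega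
    have hm' : (fun i => d + 1 - (d + 1 - m i)) = m := by
      funext i
      have := hmd i
      omega
    have hlow := h₂ r (by omega) k (fun i => d + 1 - m i) he hfro
    have hup := h₃ r (by omega) k (fun i => d + 1 - m i) he Finset.univ (by
      have := hfro d le_rfl
      have := hs d
      nlinarith)
    have hm'' : (fun i => if i ∈ (Finset.univ : Finset (Fin k)) then d + 1 - (d + 1 - m i) else 0)
        = m := by
      funext i
      rw [if_pos (Finset.mem_univ i)]
      have := hmd i
      omega
    rw [hm''] at hup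
    rw [hm'] at hlow
    have hestimate : ∀ x : ℝ, (fro r (fun i => d + 1 - m i) Finset.univ d : ℝ) -
        η / 2 * ((d + r).choose r : ℝ) ≤ x →
        x ≤ (fro r (fun i => d + 1 - m i) Finset.univ d : ℝ) + η * ((d + r).choose r : ℝ) →
        |x - (fro r (fun i => d + 1 - m i) Finset.univ d : ℝ)| ≤
          η * ((d + r).choose r : ℝ) := by
      intro x h4 h5
      have h6 := hs d
      rw [abs_le]
      constructor <;> nlinarith
    by_cases hpair : ∃ i j, i ≠ j ∧ d + 2 ≤ m i + m j
    · refine ((hlow.and hup).and (ForGeneralPoints.coord_ne_zero r k)).mono ?_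
      rintro p ⟨⟨hp1, hp2⟩, hp3⟩
      refine ⟨⟨fun _ => hpair, fun _ => ?_⟩, hestimate _ hp1 hp2⟩
      obtain ⟨i, j, hij, hd2⟩ := hpair
      apply not_maximal_of_pair hr1 d p (fun i => hp3 i 0) m (fun i => ⟨hm i, hmd i⟩) i j hij hd2
      have h4 := hfro d le_rfl
      have h5 := hs d
      have h6 : (0 : ℝ) < (Module.finrank ℂ (fatForms r d p m) : ℝ) := by nlinarith
      exact_mod_cast h6
    · have hnp : ∀ i j, i ≠ j → m i + m j ≤ d + 1 := by
        intro i j hij
        by_contra hcon
        exact hpair ⟨i, j, hij, by omega⟩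
      have h4 := fro_no_pairs r d (fun i => d + 1 - m i) Finset.univ
        (fun i _ => by have := hm i; omega) (fun i _ j _ hij => by
          have := hnp i j hij
          have := hmd i
          have := hmd j
          omega)
      have h5 : ∀ i, ((d - (d + 1 - m i) + r).choose r : ℤ) = ((m i + r - 1).choose r : ℤ) := by
        intro i
        have h6 := hm i
        have h7 := hmd i
        have h8 : d - (d + 1 - m i) + r = m i + r - 1 := by omega
        rw [h8]
      simp only [h5] at h4
      have h6 := h₁ r (by omega) k m (fun i => ⟨hm i, hmd i⟩) hnp (by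
        have h7 := hfro d le_rfl
        rw [h4] at h7
        push_cast at h7
        linarith)
      refine ((hlow.and hup).and h6).mono ?_
      rintro p ⟨⟨hp1, hp2⟩, hp3⟩
      exact ⟨⟨fun h => absurd hp3 h, fun h => absurd h hpair⟩, hestimate _ hp1 hp2⟩
  · intro hcase
    have hfin : ForGeneralPoints r k fun p => Module.finrank ℂ (fatForms r d p m) = 0 := by
      by_cases hbig : ∃ i, d < m i
      · obtain ⟨i, hi⟩ := hbig
        exact ⟨1, one_ne_zero, fun p _ => big_mult p m i hi⟩
      · push Not at hbig
        rcases hcase with ⟨i, hi⟩ | ⟨I, -, j, hj, hfro⟩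
        · exact absurd hi (not_lt.2 (hbig i))
        · have hVr : V ⟨j, Nat.lt_succ_iff.2 hj⟩ ≤ r := by
            have h4 : V ⟨j, Nat.lt_succ_iff.2 hj⟩ ≤ Finset.univ.sup V :=
              Finset.le_sup (f := V) (Finset.mem_univ _)
            omega
          have h4 := hV ⟨j, Nat.lt_succ_iff.2 hj⟩ r hVr k (fun i => d + 1 - m i)
            (fun i => by have := hbig i; omega) I hfro
          refine h4.mono fun p hp => ?_
          have h5 : Module.finrank ℂ (fatForms r d p m) ≤ Module.finrank ℂ
              (fatForms r d p (fun i => if i ∈ I then d + 1 - (d + 1 - m i) else 0)) := by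
            apply Submodule.finrank_mono
            rintro F ⟨hF1, hF2⟩
            refine ⟨hF1, fun i => ?_⟩
            intro β hβ
            apply hF2 i β
            have h6 := hbig i
            by_cases hi : i ∈ I
            · simp only [hi, if_true] at hβ
              omega
            · simp only [hi, if_false] at hβ
              omega
          omega
    refine (hfin.and (ForGeneralPoints.coord_ne_zero r k)).mono ?_
    rintro p ⟨hp1, hp2⟩
    refine ⟨hp1, ?_⟩
    have h4 := finrank_fatForms_ge (d := d) hr1 (fun i => hp2 i 0) m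
    unfold ImposesMaximalConditions
    rw [hp1] at h4 ⊢
    rw [max_eq_left]
    · simp
    · simpa using h4

end Pool.Agent.H21.HD
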